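import Pool.Agent.Run7.h96.Nd6

/-!
Natural densities with conformally invariant integral: the decomposition `S = c Q + L + G` fails in
every even dimension `n ≥ 6`.
-/

open Run7.h96.Nd

namespace Pool.Agent.Results.MP_18eb12_gt.NotDecomposable

/-- For every even `n ≥ 6` there is a natural scalar `S` which is the divergence of a natural
covector field `V` (so `∫ S dv = 0`, in particular `∫ S dv` is conformally invariant), but which is
not of the form `c Q + L + G`, with `Q` transforming like the critical `Q`-curvature, `L` a local
conformal invariant and `G` with a local conformal primitive `F`; not even for metrics on the torus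
only. The example is `S = Δ (R^{(n-6)/2} |Ric|²)`. -/
theorem result (n : ℕ) (hn : Even n) (h6 : 6 ≤ n) :
    ∃ (S : Fml 0) (V : Fml 1),
      (∀ g : Fin n → Fin n → Fn n, IsMet g → scal S g = dvg g (cov V g)) ∧
      (∀ g : Fin n → Fin n → Fn n, TMet g → tint g (scal S g) = 0) ∧
      ¬ ∃ (c : ℝ) (Q L G F : Fml 0), CritQ n Q ∧ ConfInv n L ∧ Prim n F G ∧
        ∀ g : Fin n → Fin n → Fn n, TMet g → scal S g = c • scal Q g + scal L g + scal G g :=
  Run7.h96.Nd.main n hn h6

end Pool.Agent.Results.MP_18eb12_gt.NotDecomposable
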